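import Mathlib

/-!
Følner-type criterion: if a subset `A` of a group `K` has finite subsets `F` with
`|S F ∩ A| ≤ (1 + ε) |F|` for all finite `S` and all `ε > 0`, then there is a finitely additive
left-invariant measure on `K` normalising `A`.
-/

set_option linter.unusedSimpArgs false
set_option linter.unusedVariables false

open scoped Pointwise ENNReal Topology
open Filter

namespace H31.Supra

/-- There is a finitely additive left-invariant measure on all subsets of `K` with `μ A = 1`. -/
def HasMeasure {K : Type*} [Group K] (A : Set K) : Prop :=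
  ∃ μ : Set K → ℝ≥0∞,
    μ ∅ = 0 ∧ (∀ B C : Set K, Disjoint B C → μ (B ∪ C) = μ B + μ C) ∧
    (∀ (g : K) (B : Set K), μ (g • B) = μ B) ∧ μ A = 1

section Additive

variable {K : Type*}

theorem mono_of_add {ν : Set K → ℝ≥0∞}
    (hadd : ∀ B C : Set K, Disjoint B C → ν (B ∪ C) = ν B + ν C) {B C : Set K} (h : B ⊆ C) :
    ν B ≤ ν C := by
  have : C = B ∪ (C \ B) := by rw [Set.union_sdiff_cancel h]
  rw [this, hadd _ _ Set.disjoint_sdiff_right]
  exact le_self_add

theorem sum_of_add {ν : Set K → ℝ≥0∞} (h0 : ν ∅ = 0)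
    (hadd : ∀ B C : Set K, Disjoint B C → ν (B ∪ C) = ν B + ν C) {ι : Type*} (s : Finset ι)
    (B : ι → Set K) (hB : (s : Set ι).PairwiseDisjoint B) :
    ν (⋃ i ∈ s, B i) = ∑ i ∈ s, ν (B i) := by
  classical
  induction s using Finset.induction_on with
  | empty => simp [h0]
  | insert a s ha ih =>
    rw [Finset.sum_insert ha, Finset.set_biUnion_insert, hadd, ih]
    · exact hB.subset (by simp)
    · rw [Set.disjoint_iUnion₂_right]
      intro i hi
      exact hB (by simp) (by simp [hi]) (by rintro rfl; exact ha hi)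

end Additive

variable {K : Type*} [Group K]

/-- Extension of an invariant finitely additive measure from subsets of `A` to all subsets. -/
theorem hasMeasure_of_partial (A : Set K) (ν : Set K → ℝ≥0∞) (h0 : ν ∅ = 0)
    (hadd : ∀ B C : Set K, Disjoint B C → ν (B ∪ C) = ν B + ν C)
    (hinv : ∀ (g : K) (B : Set K), B ⊆ A → g • B ⊆ A → ν (g • B) = ν B) (hA : ν A = 1) :
    HasMeasure A := by
  classical
  -- the admissible values
  let V : Set K → Set ℝ≥0∞ := fun B => {v | ∃ (ι : Type) (_ : Fintype ι) (g : ι → K)
    (C : ι → Set K), (∀ i, C i ⊆ A) ∧ (∀ i, g i • C i ⊆ B) ∧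
    (Pairwise (Function.onFun Disjoint (fun i => g i • C i))) ∧ v = ∑ i, ν (C i)}
  have hmem : ∀ (B : Set K) (ι : Type) (_ : Fintype ι) (g : ι → K) (C : ι → Set K),
      (∀ i, C i ⊆ A) → (∀ i, g i • C i ⊆ B) →
      (Pairwise (Function.onFun Disjoint (fun i => g i • C i))) →
      ∑ i, ν (C i) ≤ sSup (V B) := fun B ι _ g C h1 h2 h3 =>
    le_sSup ⟨ι, inferInstance, g, C, h1, h2, h3, rfl⟩
  have hle : ∀ (B : Set K) (x : ℝ≥0∞), (∀ (ι : Type) (_ : Fintype ι) (g : ι → K) (C : ι → Set K),
      (∀ i, C i ⊆ A) → (∀ i, g i • C i ⊆ B) →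
      (Pairwise (Function.onFun Disjoint (fun i => g i • C i))) →
      ∑ i, ν (C i) ≤ x) → sSup (V B) ≤ x := by
    intro B x h
    apply sSup_le
    rintro v ⟨ι, _, g, C, h1, h2, h3, rfl⟩
    exact h ι _ g C h1 h2 h3
  refine ⟨fun B => sSup (V B), ?_, ?_, ?_, ?_⟩
  · apply le_antisymm _ bot_le
    apply hle
    intro ι _ g C h1 h2 h3
    rw [Finset.sum_eq_zero]
    · exact bot_le
    · intro i _
      have : C i = ∅ := by
        have := h2 i
        rw [Set.subset_empty_iff, Set.smul_set_eq_empty] at this
        exact this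
      rw [this, h0]
  · intro B C hBC
    apply le_antisymm
    · apply hle
      intro ι _ g D h1 h2 h3
      have hsplit : ∀ i, ν (D i) = ν (D i ∩ (g i)⁻¹ • B) + ν (D i ∩ (g i)⁻¹ • C) := by
        intro i
        rw [← hadd]
        · congr 1
          rw [← Set.inter_union_distrib_left, ← Set.smul_set_union]
          symm
          rw [Set.inter_eq_left, ← Set.smul_set_subset_iff_subset_inv_smul_set]
          exact h2 i
        · apply Set.disjoint_of_subset Set.inter_subset_right Set.inter_subset_right
          rw [Set.disjoint_smul_set]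
          exact hBC
      simp only [hsplit]
      rw [Finset.sum_add_distrib]
      apply add_le_add
      · apply hmem B ι _ g (fun i => D i ∩ (g i)⁻¹ • B)
        · intro i; exact Set.inter_subset_left.trans (h1 i)
        · intro i
          rw [Set.smul_set_inter, smul_inv_smul]
          exact Set.inter_subset_right
        · intro i j hij
          exact Set.disjoint_of_subset (Set.smul_set_mono Set.inter_subset_left)
            (Set.smul_set_mono Set.inter_subset_left) (h3 hij)
      · apply hmem C ι _ g (fun i => D i ∩ (g i)⁻¹ • C)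
        · intro i; exact Set.inter_subset_left.trans (h1 i)
        · intro i
          rw [Set.smul_set_inter, smul_inv_smul]
          exact Set.inter_subset_right
        · intro i j hij
          exact Set.disjoint_of_subset (Set.smul_set_mono Set.inter_subset_left)
            (Set.smul_set_mono Set.inter_subset_left) (h3 hij)
    · -- superadditivity
      have key : ∀ v ∈ V B, ∀ w ∈ V C, v + w ≤ sSup (V (B ∪ C)) := by
        rintro v ⟨ι, _, g, D, h1, h2, h3, rfl⟩ w ⟨ι', _, g', D', h1', h2', h3', rfl⟩
        have := hmem (B ∪ C) (ι ⊕ ι') inferInstance (Sum.elim g g') (Sum.elim D D') (by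
          rintro (i | i)
          · exact h1 i
          · exact h1' i) (by
          rintro (i | i)
          · exact (h2 i).trans Set.subset_union_left
          · exact (h2' i).trans Set.subset_union_right) (by
          rintro (i | i) (j | j) hij
          · exact h3 (fun h => hij (by rw [h]))
          · exact Set.disjoint_of_subset (h2 i) (h2' j) hBC
          · exact Set.disjoint_of_subset (h2' i) (h2 j) hBC.symm
          · exact h3' (fun h => hij (by rw [h])))
        rw [Fintype.sum_sum_type] at this
        exact this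
      have hne : ∀ B : Set K, (V B).Nonempty := fun B =>
        ⟨0, PEmpty, inferInstance, PEmpty.elim, PEmpty.elim, fun i => i.elim, fun i => i.elim,
          fun i => i.elim, by simp⟩
      rw [ENNReal.sSup_add (hne B)]
      apply iSup₂_le
      intro v hv
      rw [ENNReal.add_sSup (hne C)]
      apply iSup₂_le
      intro w hw
      exact key v hv w hw
  · have hle' : ∀ (g : K) (B : Set K), sSup (V B) ≤ sSup (V (g • B)) := by
      intro g B
      apply hle
      intro ι _ h C h1 h2 h3
      apply hmem (g • B) ι _ (fun i => g * h i) C h1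
      · intro i
        rw [mul_smul]
        exact Set.smul_set_mono (h2 i)
      · intro i j hij
        have := h3 hij
        simp only [Function.onFun, mul_smul] at this ⊢
        rw [Set.disjoint_smul_set]
        exact this
    intro g B
    apply le_antisymm
    · have := hle' g⁻¹ (g • B)
      rwa [inv_smul_smul] at this
    · exact hle' g B
  · apply le_antisymm
    · apply hle
      intro ι _ g C h1 h2 h3
      have hs : ∑ i, ν (C i) = ∑ i, ν (g i • C i) :=
        Finset.sum_congr rfl (fun i _ => (hinv (g i) (C i) (h1 i) (h2 i)).symm)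
      rw [hs, ← sum_of_add h0 hadd Finset.univ (fun i => g i • C i) (fun i _ j _ hij => h3 hij),
        ← hA]
      apply mono_of_add hadd
      simp only [Finset.mem_univ, Set.iUnion_true]
      exact Set.iUnion_subset h2
    · have := hmem A Unit inferInstance (fun _ => 1) (fun _ => A) (fun _ => le_rfl)
        (fun _ => by simp) (fun i j hij => absurd (Subsingleton.elim i j) hij)
      simpa [hA] using this

/-- Følner-type sets give an invariant measure normalising `A`. -/
theorem hasMeasure_of_folner (A : Set K)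
    (hF : ∀ (S : Finset K) (n : ℕ), ∃ F : Finset K, F.Nonempty ∧ (F : Set K) ⊆ A ∧
      (((S : Set K) * F) ∩ A).ncard * (n + 1) ≤ (n + 2) * F.card) :
    HasMeasure A := by
  classical
  choose F hne hFA hFS using hF
  let I := Finset K × ℕ
  let U : Ultrafilter I := Ultrafilter.of atTop
  have hU : (U : Filter I) ≤ atTop := Ultrafilter.of_le _
  let x : Set K → I → ℝ≥0∞ := fun B i =>
    (((B ∩ (F i.1 i.2 : Set K)).ncard : ℕ) : ℝ≥0∞) / ((F i.1 i.2).card : ℝ≥0∞)
  have hlim : ∀ B, ∃ a : ℝ≥0∞, Tendsto (x B) U (𝓝 a) := by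
    intro B
    obtain ⟨a, -, ha⟩ := isCompact_univ.ultrafilter_le_nhds (U.map (x B)) (by simp)
    exact ⟨a, ha⟩
  choose ν hν using hlim
  have hfin : ∀ (B : Set K) (i : I), (B ∩ (F i.1 i.2 : Set K)).Finite := fun B i =>
    (F i.1 i.2).finite_toSet.subset Set.inter_subset_right
  have hcard : ∀ i : I, ((F i.1 i.2).card : ℝ≥0∞) ≠ 0 := by
    intro i
    have := (hne i.1 i.2).card_pos
    exact_mod_cast this.ne'
  have hcard' : ∀ i : I, ((F i.1 i.2).card : ℝ≥0∞) ≠ ⊤ := fun i => ENNReal.natCast_ne_top _
  apply hasMeasure_of_partial A ν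
  · apply tendsto_nhds_unique (hν ∅)
    have : x ∅ = fun _ => 0 := by
      funext i
      simp [x]
    rw [this]
    exact tendsto_const_nhds
  · intro B C hBC
    apply tendsto_nhds_unique (hν _)
    have : x (B ∪ C) = fun i => x B i + x C i := by
      funext i
      simp only [x]
      rw [Set.union_inter_distrib_right, Set.ncard_union_eq
        (Set.disjoint_of_subset Set.inter_subset_left Set.inter_subset_left hBC) (hfin _ _)
        (hfin _ _), Nat.cast_add, ENNReal.add_div]
    rw [this]
    exact (hν B).add (hν C)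
  · -- invariance
    have hle : ∀ (g : K) (B : Set K), B ⊆ A → g • B ⊆ A → ν (g • B) ≤ ν B := by
      intro g B hB hgB
      -- `x (g • B) i ≤ x B i + 1 / (n + 1)` eventually
      have hev : ∀ᶠ i in (U : Filter I), x (g • B) i ≤ x B i + ((i.2 : ℝ≥0∞) + 1)⁻¹ := by
        have h1 : ∀ᶠ i : I in atTop, ({1, g⁻¹} : Finset K) ⊆ i.1 := by
          have : Tendsto (Prod.fst : I → Finset K) atTop atTop := by
            rw [← prod_atTop_atTop_eq]
            exact tendsto_fst
          exact this.eventually (eventually_ge_atTop _)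
        filter_upwards [hU h1] with i hi
        have hi' : ({1, g⁻¹} : Finset K) ⊆ i.1 := hi
        have m1 : (1 : K) ∈ i.1 := hi' (by simp)
        have m2 : g⁻¹ ∈ i.1 := hi' (by simp)
        have hSF := hFS i.1 i.2
        set Fi := F i.1 i.2 with hFi
        have hSfin : (((i.1 : Set K) * (Fi : Set K)) ∩ A).Finite :=
          (i.1.finite_toSet.mul Fi.finite_toSet).subset Set.inter_subset_left
        -- counting
        have hc1 : ((g • B) ∩ (Fi : Set K)).ncard ≤ (B ∩ (Fi : Set K)).ncard +
            ((((i.1 : Set K) * (Fi : Set K)) ∩ A) \ (Fi : Set K)).ncard := by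
          have e : ((g • B) ∩ (Fi : Set K)).ncard = (B ∩ g⁻¹ • (Fi : Set K)).ncard := by
            have : (g • B) ∩ (Fi : Set K) = g • (B ∩ g⁻¹ • (Fi : Set K)) := by
              rw [Set.smul_set_inter, smul_inv_smul]
            rw [this, Set.ncard_smul_set]
          rw [e]
          refine (Set.ncard_le_ncard (t := (B ∩ (Fi : Set K)) ∪
            ((((i.1 : Set K) * (Fi : Set K)) ∩ A) \ (Fi : Set K))) ?_
            ((hfin B i).union (hSfin.subset Set.sdiff_subset))).trans
            (Set.ncard_union_le _ _)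
          rintro z ⟨hz1, hz2⟩
          by_cases hz : z ∈ (Fi : Set K)
          · exact Or.inl ⟨hz1, hz⟩
          · refine Or.inr ⟨⟨?_, hB hz1⟩, hz⟩
            obtain ⟨y, hy, rfl⟩ := hz2
            exact Set.mul_mem_mul m2 hy
        have hc2 : ((((i.1 : Set K) * (Fi : Set K)) ∩ A) \ (Fi : Set K)).ncard + Fi.card =
            (((i.1 : Set K) * (Fi : Set K)) ∩ A).ncard := by
          have hsub : (Fi : Set K) ⊆ ((i.1 : Set K) * (Fi : Set K)) ∩ A := by
            intro z hz
            exact ⟨⟨1, m1, z, hz, one_mul z⟩, hFA _ _ hz⟩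
          have := Set.ncard_sdiff_add_ncard_of_subset hsub hSfin
          rwa [Set.ncard_coe_finset] at this
        have hc3 : ((((i.1 : Set K) * (Fi : Set K)) ∩ A) \ (Fi : Set K)).ncard * (i.2 + 1)
            ≤ Fi.card := by
          rw [← hc2] at hSF
          nlinarith
        -- convert to `ℝ≥0∞`
        have hpos : ((i.2 : ℝ≥0∞) + 1) ≠ 0 := by simp
        have htop : ((i.2 : ℝ≥0∞) + 1) ≠ ⊤ := by
          exact_mod_cast ENNReal.natCast_ne_top (i.2 + 1)
        have hd : ((((((i.1 : Set K) * (Fi : Set K)) ∩ A) \ (Fi : Set K)).ncard : ℕ) : ℝ≥0∞)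
            / (Fi.card : ℝ≥0∞) ≤ ((i.2 : ℝ≥0∞) + 1)⁻¹ := by
          rw [ENNReal.div_le_iff_le_mul (Or.inl (hcard i)) (Or.inl (hcard' i)),
            ← ENNReal.div_eq_inv_mul, ENNReal.le_div_iff_mul_le (Or.inl hpos) (Or.inl htop)]
          exact_mod_cast hc3
        calc x (g • B) i = (((g • B) ∩ (Fi : Set K)).ncard : ℝ≥0∞) / (Fi.card : ℝ≥0∞) := rfl
          _ ≤ (((B ∩ (Fi : Set K)).ncard + ((((i.1 : Set K) * (Fi : Set K)) ∩ A) \
              (Fi : Set K)).ncard : ℕ) : ℝ≥0∞) / (Fi.card : ℝ≥0∞) := by
                gcongr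
          _ = x B i + ((((((i.1 : Set K) * (Fi : Set K)) ∩ A) \ (Fi : Set K)).ncard : ℕ) : ℝ≥0∞)
            / (Fi.card : ℝ≥0∞) := by
                rw [Nat.cast_add, ENNReal.add_div]
          _ ≤ x B i + ((i.2 : ℝ≥0∞) + 1)⁻¹ := by gcongr
      have hz : Tendsto (fun i : I => ((i.2 : ℝ≥0∞) + 1)⁻¹) U (𝓝 0) := by
        have h1 : Tendsto (Prod.snd : I → ℕ) atTop atTop := by
          rw [← prod_atTop_atTop_eq]
          exact tendsto_snd
        have h2 : Tendsto (fun n : ℕ => ((n : ℝ≥0∞) + 1)⁻¹) atTop (𝓝 0) := by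
          have := ENNReal.tendsto_inv_nat_nhds_zero.comp (tendsto_add_atTop_nat 1)
          refine this.congr (fun n => ?_)
          simp
        exact (h2.comp h1).mono_left hU
      have h3 := (hν B).add hz
      rw [add_zero] at h3
      exact le_of_tendsto_of_tendsto (hν _) h3 hev
    intro g B hB hgB
    apply le_antisymm (hle g B hB hgB)
    have := hle g⁻¹ (g • B) hgB (by rwa [inv_smul_smul])
    rwa [inv_smul_smul] at this
  · apply tendsto_nhds_unique (hν A)
    have : x A = fun _ => 1 := by
      funext i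
      simp only [x]
      rw [Set.inter_eq_right.2 (hFA _ _), Set.ncard_coe_finset]
      exact ENNReal.div_self (hcard i) (hcard' i)
    rw [this]
    exact tendsto_const_nhds

end H31.Supra
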