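import Mathlib
import Pool.Agent.H31.Supra.Folner

set_option linter.unusedSimpArgs false
set_option linter.unusedVariables false

open scoped Pointwise ENNReal Topology
open Filter

namespace H31.Supra

open Classical in
/-- If `A` has no normalising measure, then it carries many-to-one expanding maps with bounded
displacement. -/
theorem exists_branching {K : Type*} [Group K] {A : Set K} (hA : ¬ HasMeasure A) :
    ∃ (S : Finset K) (lam : ℝ), 1 < lam ∧ ∀ (k q : ℕ), (q : ℝ) ≤ lam ^ k →
      ∃ φ : A × Fin q → A, Function.Injective φ ∧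
        ∀ (a : A) (i : Fin q), ∃ s ∈ S ^ k, ((φ (a, i) : A) : K) = s * a := by
  have h : ∃ (S : Finset K) (n : ℕ), ∀ F : Finset K, F.Nonempty → (F : Set K) ⊆ A →
      (n + 2) * F.card < (((S : Set K) * F) ∩ A).ncard * (n + 1) := by
    by_contra hcon
    push Not at hcon
    exact hA (hasMeasure_of_folner A hcon)
  obtain ⟨S, n, hS⟩ := h
  have hn : (0 : ℝ) < n + 1 := by positivity
  refine ⟨S, (n + 2) / (n + 1), ?_, ?_⟩
  · rw [lt_div_iff₀ hn]; linarith
  intro k q hq
  let N : Finset K → Finset K := fun F => (S * F).filter (· ∈ A)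
  have hNA : ∀ F, (N F : Set K) ⊆ A := by
    intro F x hx
    simp only [N, Finset.coe_filter, Set.mem_ofPred_eq] at hx
    exact hx.2
  have hNset : ∀ F : Finset K, (N F : Set K) = ((S : Set K) * F) ∩ A := by
    intro F
    ext x
    simp only [N, Finset.coe_filter, Set.mem_ofPred_eq, Set.mem_inter_iff, ← Finset.coe_mul,
      Finset.mem_coe]
  have hNcard : ∀ F : Finset K, (F : Set K) ⊆ A →
      ((n + 2 : ℝ) / (n + 1)) * F.card ≤ (N F).card := by
    intro F hF
    rcases F.eq_empty_or_nonempty with rfl | hne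
    · simp
    have h1 := hS F hne hF
    rw [← hNset, Set.ncard_coe_finset] at h1
    rw [div_mul_eq_mul_div, div_le_iff₀ hn]
    exact_mod_cast h1.le
  have hiter : ∀ k : ℕ, ∀ F : Finset K, (F : Set K) ⊆ A →
      ((N^[k] F : Finset K) : Set K) ⊆ A ∧ (N^[k] F) ⊆ S ^ k * F ∧
      ((n + 2 : ℝ) / (n + 1)) ^ k * F.card ≤ (N^[k] F).card := by
    intro k
    induction k with
    | zero => intro F hF; exact ⟨hF, by simp, by simp⟩
    | succ k ih =>
      intro F hF
      obtain ⟨h1, h2, h3⟩ := ih F hF
      rw [Function.iterate_succ_apply']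
      refine ⟨hNA _, ?_, ?_⟩
      · intro x hx
        have hx' : x ∈ S * N^[k] F := (Finset.mem_filter.1 hx).1
        rw [pow_succ', mul_assoc]
        exact Finset.mul_subset_mul_left h2 hx'
      · refine le_trans ?_ (hNcard _ h1)
        rw [pow_succ', mul_assoc]
        exact mul_le_mul_of_nonneg_left h3 (by positivity)
  -- Hall's theorem
  let t : A × Fin q → Finset K := fun p => (S ^ k * {(p.1 : K)}).filter (· ∈ A)
  have hall : ∀ s : Finset (A × Fin q), s.card ≤ (s.biUnion t).card := by
    intro s
    let F : Finset K := s.image (fun p => (p.1 : K))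
    have hFA : (F : Set K) ⊆ A := by
      intro x hx
      obtain ⟨p, hp, rfl⟩ := Finset.mem_image.1 (Finset.mem_coe.1 hx)
      exact p.1.2
    have h1 : s.card ≤ q * F.card := by
      have hsub : s ⊆ (s.image Prod.fst) ×ˢ (Finset.univ : Finset (Fin q)) := by
        intro p hp
        rw [Finset.mem_product]
        exact ⟨Finset.mem_image_of_mem _ hp, Finset.mem_univ _⟩
      have h2 := Finset.card_le_card hsub
      rw [Finset.card_product, Finset.card_univ, Fintype.card_fin] at h2
      have h3 : (s.image Prod.fst).card = F.card := by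
        have : F = (s.image Prod.fst).image (Subtype.val : A → K) := by
          rw [Finset.image_image]; rfl
        rw [this, Finset.card_image_of_injective _ Subtype.val_injective]
      rw [h3] at h2
      linarith [h2, mul_comm F.card q]
    obtain ⟨g1, g2, g3⟩ := hiter k F hFA
    have h4 : (N^[k] F) ⊆ s.biUnion t := by
      intro x hx
      have hx1 := g2 hx
      obtain ⟨u, hu, y, hy, rfl⟩ := Finset.mem_mul.1 hx1
      obtain ⟨p, hp, rfl⟩ := Finset.mem_image.1 hy
      rw [Finset.mem_biUnion]
      refine ⟨p, hp, ?_⟩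
      rw [Finset.mem_filter]
      exact ⟨Finset.mul_mem_mul hu (Finset.mem_singleton_self _), g1 hx⟩
    have h5 := Finset.card_le_card h4
    have h6 : ((q * F.card : ℕ) : ℝ) ≤ (N^[k] F).card := by
      push_cast
      exact (mul_le_mul_of_nonneg_right hq (by positivity)).trans g3
    have h7 : q * F.card ≤ (N^[k] F).card := by exact_mod_cast h6
    exact h1.trans (h7.trans h5)
  obtain ⟨f, hf1, hf2⟩ := (Finset.all_card_le_biUnion_card_iff_exists_injective t).1 hall
  refine ⟨fun p => ⟨f p, (Finset.mem_filter.1 (hf2 p)).2⟩, ?_, ?_⟩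
  · intro p p' hpp
    exact hf1 (congrArg Subtype.val hpp)
  · intro a i
    obtain ⟨s, hs, y, hy, hsy⟩ := Finset.mem_mul.1 (Finset.mem_filter.1 (hf2 (a, i))).1
    rw [Finset.mem_singleton] at hy
    subst hy
    exact ⟨s, hs, hsy.symm⟩

end H31.Supra
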