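import Mathlib

/-!
A probabilistic-style selection lemma: in a `q`-ary tree whose nodes carry colours, and such that
each colour appears few times on each level below each node, there are full binary subtrees of
any height whose nodes have pairwise different colours.
-/

set_option linter.unusedSimpArgs false
set_option linter.unusedVariables false
set_option linter.unusedSectionVars false

namespace H31.Supra

section Lev

variable {W : Type*} [Fintype W]

/-- Sum of `b` over the nodes `n` levels below `t`; the children of `t` are the `w :: t`. -/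
def lev : ℕ → (List W → ℝ) → List W → ℝ
  | 0, b, t => b t
  | n + 1, b, t => ∑ w, lev n b (w :: t)

@[simp] theorem lev_zero (b : List W → ℝ) (t : List W) : lev 0 b t = b t := rfl

theorem lev_succ (n : ℕ) (b : List W → ℝ) (t : List W) :
    lev (n + 1) b t = ∑ w, lev n b (w :: t) := rfl

theorem lev_mono {b c : List W → ℝ} (h : ∀ s, b s ≤ c s) (n : ℕ) (t : List W) :
    lev n b t ≤ lev n c t := by
  induction n generalizing t with
  | zero => exact h t
  | succ n ih => exact Finset.sum_le_sum (fun w _ => ih _)

theorem lev_nonneg {b : List W → ℝ} (h : ∀ s, 0 ≤ b s) (n : ℕ) (t : List W) :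
    0 ≤ lev n b t := by
  induction n generalizing t with
  | zero => exact h t
  | succ n ih => exact Finset.sum_nonneg (fun w _ => ih _)

theorem lev_add (b c : List W → ℝ) (n : ℕ) (t : List W) :
    lev n (fun s => b s + c s) t = lev n b t + lev n c t := by
  induction n generalizing t with
  | zero => rfl
  | succ n ih => simp only [lev_succ, ih, Finset.sum_add_distrib]

theorem lev_mul (x : ℝ) (b : List W → ℝ) (n : ℕ) (t : List W) :
    lev n (fun s => x * b s) t = x * lev n b t := by
  induction n generalizing t with
  | zero => rfl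
  | succ n ih => simp only [lev_succ, ih, Finset.mul_sum]

theorem lev_zero_fun (n : ℕ) (t : List W) : lev n (fun _ => 0) t = 0 := by
  have := lev_mul 0 (fun _ => (0 : ℝ)) n t
  simpa using this

theorem lev_const (x : ℝ) (n : ℕ) (t : List W) :
    lev n (fun _ => x) t = (Fintype.card W : ℝ) ^ n * x := by
  induction n generalizing t with
  | zero => simp
  | succ n ih =>
    simp only [lev_succ, ih, Finset.sum_const, Finset.card_univ, nsmul_eq_mul, pow_succ]
    ring

theorem lev_sum {ι : Type*} (I : Finset ι) (f : ι → List W → ℝ) (n : ℕ) (t : List W) :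
    lev n (fun s => ∑ i ∈ I, f i s) t = ∑ i ∈ I, lev n (f i) t := by
  induction n generalizing t with
  | zero => rfl
  | succ n ih =>
    simp only [lev_succ, ih]
    rw [Finset.sum_comm]

theorem lev_list_sum {ι : Type*} (l : List ι) (f : ι → List W → ℝ) (n : ℕ) (t : List W) :
    lev n (fun s => (l.map (fun i => f i s)).sum) t = (l.map (fun i => lev n (f i) t)).sum := by
  induction l with
  | nil => simpa using lev_zero_fun n t
  | cons a l ih => simp only [List.map_cons, List.sum_cons, lev_add, ih]

theorem lev_comm (K : List W → List W → ℝ) (i j : ℕ) (t t' : List W) :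
    lev i (fun s => lev j (fun s' => K s s') t') t =
      lev j (fun s' => lev i (fun s => K s s') t) t' := by
  induction i generalizing t with
  | zero => rfl
  | succ i ih =>
    simp only [lev_succ, ih]
    rw [lev_sum]

end Lev

/-- Binary trees with choices of children. -/
inductive BT (W : Type*)
  | leaf : BT W
  | node : W → BT W → W → BT W → BT W

namespace BT

variable {W : Type*}

/-- The nodes visited by a binary tree of choices, started at `t`. -/
def pos : BT W → List W → List (List W)
  | leaf, t => [t]
  | node w l w' r, t => t :: (pos l (w :: t) ++ pos r (w' :: t))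

/-- The tree is full of height `m`. -/
def Full : ℕ → BT W → Prop
  | 0, leaf => True
  | m + 1, node _ l _ r => Full m l ∧ Full m r
  | 0, node _ _ _ _ => False
  | _ + 1, leaf => False

/-- total of `b` over the visited nodes -/
noncomputable def cost (b : List W → ℝ) (e : BT W) (t : List W) : ℝ := ((pos e t).map b).sum

theorem cost_add (b c : List W → ℝ) (e : BT W) (t : List W) :
    cost (fun s => b s + c s) e t = cost b e t + cost c e t := by
  unfold cost
  induction pos e t with
  | nil => simp
  | cons a l ih =>
    simp only [List.map_cons, List.sum_cons, ih]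
    ring

theorem cost_mul (x : ℝ) (b : List W → ℝ) (e : BT W) (t : List W) :
    cost (fun s => x * b s) e t = x * cost b e t := by
  unfold cost
  induction pos e t with
  | nil => simp
  | cons a l ih =>
    simp only [List.map_cons, List.sum_cons, ih]
    ring

theorem cost_nonneg {b : List W → ℝ} (h : ∀ s, 0 ≤ b s) (e : BT W) (t : List W) :
    0 ≤ cost b e t := by
  unfold cost
  apply List.sum_nonneg
  intro x hx
  obtain ⟨s, -, rfl⟩ := List.mem_map.1 hx
  exact h s

end BT

open BT

section Main

variable {W : Type*} [Fintype W] [Nonempty W]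

/-- The discounted total of `c` over levels `1, …, m+1` below `t`. -/
noncomputable def disc (m : ℕ) (c : List W → ℝ) (t : List W) : ℝ :=
  ∑ j ∈ Finset.range (m + 1), (4 / (Fintype.card W : ℝ)) ^ (j + 1) * lev (j + 1) c t

theorem disc_add (m : ℕ) (b c : List W → ℝ) (t : List W) :
    disc m (fun s => b s + c s) t = disc m b t + disc m c t := by
  simp only [disc, lev_add, mul_add, Finset.sum_add_distrib]

theorem disc_mul (m : ℕ) (x : ℝ) (b : List W → ℝ) (t : List W) :
    disc m (fun s => x * b s) t = x * disc m b t := by
  simp only [disc, lev_mul, Finset.mul_sum]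
  exact Finset.sum_congr rfl (fun j _ => by ring)

theorem disc_nonneg (m : ℕ) {b : List W → ℝ} (h : ∀ s, 0 ≤ b s) (t : List W) :
    0 ≤ disc m b t :=
  Finset.sum_nonneg (fun j _ => mul_nonneg (by positivity) (lev_nonneg h _ _))

theorem disc_list_sum (m : ℕ) {ι : Type*} (l : List ι) (f : ι → List W → ℝ) (t : List W) :
    disc m (fun s => (l.map (fun i => f i s)).sum) t = (l.map (fun i => disc m (f i) t)).sum := by
  induction l with
  | nil =>
    simp only [List.map_nil, List.sum_nil]
    have := disc_mul m 0 (fun _ => (0 : ℝ)) t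
    simpa using this
  | cons a l ih => simp only [List.map_cons, List.sum_cons, disc_add, ih]

open Classical in
/-- The indicator of the colour class `x`. -/
noncomputable def ind {C : Type*} (g : List W → C) (x : C) (s : List W) : ℝ :=
  if g s = x then 1 else 0

theorem ind_nonneg {C : Type*} (g : List W → C) (x : C) (s : List W) : 0 ≤ ind g x s := by
  unfold ind
  split <;> norm_num

theorem ind_symm {C : Type*} (g : List W → C) (s s' : List W) :
    ind g (g s) s' = ind g (g s') s := by
  unfold ind
  by_cases h : g s = g s'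
  · rw [if_pos h, if_pos h.symm]
  · rw [if_neg h, if_neg (fun h' => h h'.symm)]

/-- The averaging step. -/
theorem exists_child (m : ℕ) (c : List W → ℝ) (t : List W) :
    ∃ w : W, ∑ j ∈ Finset.range (m + 1), (4 / (Fintype.card W : ℝ)) ^ j * lev j c (w :: t)
      ≤ disc m c t / 4 := by
  have hq : (0 : ℝ) < Fintype.card W := by exact_mod_cast Fintype.card_pos
  by_contra hcon
  push Not at hcon
  have h1 : ∑ w : W, disc m c t / 4 <
      ∑ w : W, ∑ j ∈ Finset.range (m + 1), (4 / (Fintype.card W : ℝ)) ^ j * lev j c (w :: t) :=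
    Finset.sum_lt_sum_of_nonempty Finset.univ_nonempty (fun w _ => hcon w)
  rw [Finset.sum_comm] at h1
  have h2 : ∑ j ∈ Finset.range (m + 1), ∑ w : W,
      (4 / (Fintype.card W : ℝ)) ^ j * lev j c (w :: t) =
      (Fintype.card W : ℝ) * (disc m c t / 4) := by
    unfold disc
    rw [Finset.sum_div, Finset.mul_sum]
    apply Finset.sum_congr rfl
    intro j _
    rw [lev_succ, ← Finset.mul_sum, pow_succ]
    field_simp
  rw [h2, Finset.sum_const, Finset.card_univ, nsmul_eq_mul] at h1
  exact lt_irrefl _ h1

/-- The multiplicity estimate. -/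
theorem disc_pairs_le {C : Type*} (g : List W → C) (γ : ℕ → ℝ) (hγ : ∀ n, 0 ≤ γ n)
    (hmult : ∀ t n x, lev n (ind g x) t ≤ γ n) (m : ℕ) (t : List W) :
    disc m (fun s => disc m (ind g (g s)) t) t ≤
      ∑ j ∈ Finset.range (m + 1), (32 / (Fintype.card W : ℝ)) ^ (j + 1) * γ (j + 1) := by
  have hq : (0 : ℝ) < Fintype.card W := by exact_mod_cast Fintype.card_pos
  set q : ℝ := (Fintype.card W : ℝ) with hqdef
  let u : ℕ → ℝ := fun n => (16 / q) ^ n * γ n
  have hu : ∀ n, 0 ≤ u n := fun n => mul_nonneg (by positivity) (hγ n)
  -- the two-level sums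
  have hF1 : ∀ i j, lev i (fun s => lev j (ind g (g s)) t) t ≤ q ^ i * γ j := by
    intro i j
    rw [hqdef, ← lev_const (γ j) i t]
    exact lev_mono (fun s => hmult t j _) i t
  have hF2 : ∀ i j, lev i (fun s => lev j (ind g (g s)) t) t ≤ q ^ j * γ i := by
    intro i j
    have e : lev i (fun s => lev j (ind g (g s)) t) t =
        lev j (fun s => lev i (ind g (g s)) t) t := by
      have h1 := lev_comm (fun s s' => ind g (g s') s) i j t t
      have h2 : (fun s => lev j (ind g (g s)) t) =
          fun s => lev j (fun s' => ind g (g s') s) t := by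
        funext s
        congr 1
        funext s'
        exact ind_symm g s s'
      rw [h2]
      exact h1
    rw [e]
    exact hF1 j i
  have hle : ∀ i j, (4 / q) ^ (i + j) * lev i (fun s => lev j (ind g (g s)) t) t ≤
      (if i ≤ j then u j else 0) + (if j ≤ i then u i else 0) := by
    have aux : ∀ a b : ℕ, a ≤ b → ∀ x : ℝ, x ≤ q ^ a * γ b →
        (4 / q) ^ (a + b) * x ≤ u b := by
      intro a b hab x hx
      calc (4 / q) ^ (a + b) * x ≤ (4 / q) ^ (a + b) * (q ^ a * γ b) :=
            mul_le_mul_of_nonneg_left hx (by positivity)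
        _ = 4 ^ a * ((4 / q) ^ b * γ b) := by
            rw [pow_add, div_pow]
            field_simp
        _ ≤ 4 ^ b * ((4 / q) ^ b * γ b) := by
            apply mul_le_mul_of_nonneg_right (pow_le_pow_right₀ (by norm_num) hab)
            exact mul_nonneg (by positivity) (hγ b)
        _ = u b := by
            simp only [u]
            rw [← mul_assoc, ← mul_pow]
            congr 2
            ring
    intro i j
    rcases le_total i j with h | h
    · have h1 := aux i j h _ (hF1 i j)
      rw [if_pos h]
      have : (0 : ℝ) ≤ if j ≤ i then u i else 0 := by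
        split
        · exact hu i
        · exact le_rfl
      linarith
    · have h1 := aux j i h _ (hF2 i j)
      rw [add_comm j i] at h1
      rw [if_pos h]
      have : (0 : ℝ) ≤ if i ≤ j then u j else 0 := by
        split
        · exact hu j
        · exact le_rfl
      linarith
  -- expand
  have hexp : disc m (fun s => disc m (ind g (g s)) t) t =
      ∑ i ∈ Finset.range (m + 1), ∑ j ∈ Finset.range (m + 1),
        (4 / q) ^ ((i + 1) + (j + 1)) *
          lev (i + 1) (fun s => lev (j + 1) (ind g (g s)) t) t := by
    rw [show disc m (fun s => disc m (ind g (g s)) t) t = ∑ i ∈ Finset.range (m + 1),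
      (4 / q) ^ (i + 1) * lev (i + 1) (fun s => disc m (ind g (g s)) t) t from rfl]
    apply Finset.sum_congr rfl
    intro i _
    simp only [disc]
    rw [lev_sum, Finset.mul_sum]
    apply Finset.sum_congr rfl
    intro j _
    rw [lev_mul, ← mul_assoc, ← pow_add]
  rw [hexp]
  calc _ ≤ ∑ i ∈ Finset.range (m + 1), ∑ j ∈ Finset.range (m + 1),
        ((if i + 1 ≤ j + 1 then u (j + 1) else 0) + (if j + 1 ≤ i + 1 then u (i + 1) else 0)) :=
        Finset.sum_le_sum (fun i _ => Finset.sum_le_sum (fun j _ => hle (i + 1) (j + 1)))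
    _ = 2 * ∑ j ∈ Finset.range (m + 1), ∑ i ∈ Finset.range (m + 1),
        (if i + 1 ≤ j + 1 then u (j + 1) else 0) := by
        simp only [Finset.sum_add_distrib]
        rw [Finset.sum_comm]
        ring
    _ ≤ 2 * ∑ j ∈ Finset.range (m + 1), ((j : ℝ) + 1) * u (j + 1) := by
        apply mul_le_mul_of_nonneg_left _ (by norm_num)
        apply Finset.sum_le_sum
        intro j _
        rw [← Finset.sum_filter, Finset.sum_const, nsmul_eq_mul]
        apply mul_le_mul_of_nonneg_right _ (hu _)
        have : (Finset.filter (fun i => i + 1 ≤ j + 1) (Finset.range (m + 1))).card ≤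
            (Finset.range (j + 1)).card := by
          apply Finset.card_le_card
          intro i hi
          rw [Finset.mem_filter] at hi
          rw [Finset.mem_range]
          omega
        rw [Finset.card_range] at this
        exact_mod_cast this
    _ ≤ ∑ j ∈ Finset.range (m + 1), (32 / q) ^ (j + 1) * γ (j + 1) := by
        rw [Finset.mul_sum]
        apply Finset.sum_le_sum
        intro j _
        have h2 : 2 * ((j : ℝ) + 1) ≤ 2 ^ (j + 1) := by
          have : j + 1 ≤ 2 ^ j := Nat.lt_two_pow_self
          rw [pow_succ]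
          have h3 : ((j + 1 : ℕ) : ℝ) ≤ ((2 ^ j : ℕ) : ℝ) := by exact_mod_cast this
          push_cast at h3
          linarith
        calc 2 * (((j : ℝ) + 1) * u (j + 1)) = (2 * ((j : ℝ) + 1)) * u (j + 1) := by ring
          _ ≤ 2 ^ (j + 1) * u (j + 1) := mul_le_mul_of_nonneg_right h2 (hu _)
          _ = (32 / q) ^ (j + 1) * γ (j + 1) := by
            simp only [u]
            rw [← mul_assoc, ← mul_pow]
            congr 2
            ring

open Classical in
/-- Counting coincidences. -/
theorem count_eq {C : Type*} (g : List W → C) (L : List (List W)) (s : List W) :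
    (L.map (fun u => ind g (g u) s)).sum = ((L.map g).count (g s) : ℝ) := by
  induction L with
  | nil => simp
  | cons a L ih =>
    rw [List.map_cons, List.sum_cons, ih, List.map_cons, List.count_cons]
    unfold ind
    by_cases h : g a = g s
    · rw [if_pos h.symm, if_pos (by simp [h])]
      push_cast
      ring
    · rw [if_neg (fun h' => h h'.symm), if_neg (by simpa using h)]
      push_cast
      ring

/-- **The selection lemma.** -/
theorem rainbow {C : Type*} (g : List W → C) (γ : ℕ → ℝ) (hγ : ∀ n, 0 ≤ γ n)
    (hmult : ∀ t n x, lev n (ind g x) t ≤ γ n)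
    (hsum : ∀ m, ∑ j ∈ Finset.range (m + 1),
      (32 / (Fintype.card W : ℝ)) ^ (j + 1) * γ (j + 1) ≤ 1 / 4)
    (m : ℕ) : ∀ (t : List W) (b : List W → ℝ), (∀ s, 0 ≤ b s) → ∀ δ : ℝ, 0 < δ →
      ∃ e : BT W, Full m e ∧ ((pos e t).map g).Nodup ∧
        cost b e t ≤
          ∑ j ∈ Finset.range (m + 1), (4 / (Fintype.card W : ℝ)) ^ j * lev j b t + δ := by
  have hq : (0 : ℝ) < Fintype.card W := by exact_mod_cast Fintype.card_pos
  induction m with
  | zero =>
    intro t b hb δ hδ
    refine ⟨leaf, trivial, by simp [pos], ?_⟩
    simp [cost, pos]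
    exact hδ.le
  | succ m ih =>
    intro t b hb δ hδ
    have step : ∀ (c : List W → ℝ), (∀ s, 0 ≤ c s) → ∀ δ' : ℝ, 0 < δ' →
        ∃ (w : W) (e : BT W), Full m e ∧ ((pos e (w :: t)).map g).Nodup ∧
          cost c e (w :: t) ≤ disc m c t / 4 + δ' := by
      intro c hc δ' hδ'
      obtain ⟨w, hw⟩ := exists_child m c t
      obtain ⟨e, h1, h2, h3⟩ := ih (w :: t) c hc δ' hδ'
      exact ⟨w, e, h1, h2, h3.trans (by linarith)⟩
    set β := disc m b t with hβ
    have hβ0 : 0 ≤ β := disc_nonneg m hb t
    let M := β + δ
    have hM : 0 < M := by positivity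
    have hδ' : 0 < δ / 8 := by positivity
    let b' : List W → ℝ := fun s => disc m (ind g (g s)) t
    have hb' : ∀ s, 0 ≤ b' s := fun s => disc_nonneg m (ind_nonneg g _) t
    have hτ1 : disc m b' t ≤ 1 / 4 := (disc_pairs_le g γ hγ hmult m t).trans (hsum m)
    have hτ2 : disc m (ind g (g t)) t ≤ 1 / 4 := by
      refine le_trans ?_ (hsum m)
      apply Finset.sum_le_sum
      intro j _
      apply mul_le_mul _ (hmult t _ _) (lev_nonneg (ind_nonneg g _) _ _) (by positivity)
      apply pow_le_pow_left₀ (by positivity)
      apply div_le_div_of_nonneg_right _ hq.le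
      norm_num
    have hτ3 : 0 ≤ disc m (ind g (g t)) t := disc_nonneg m (ind_nonneg g _) t
    have hτ4 : 0 ≤ disc m b' t := disc_nonneg m hb' t
    -- left subtree
    obtain ⟨w, l, hl1, hl2, hl3⟩ := step
      (fun s => (b s + M * ind g (g t) s) + M * b' s)
      (fun s => add_nonneg (add_nonneg (hb s) (mul_nonneg hM.le (ind_nonneg g _ s)))
        (mul_nonneg hM.le (hb' s))) (δ / 8) hδ'
    rw [disc_add, disc_add, disc_mul, disc_mul, cost_add, cost_add, cost_mul, cost_mul] at hl3
    -- right subtree
    obtain ⟨w', r, hr1, hr2, hr3⟩ := step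
      (fun s => (b s + M * ind g (g t) s) +
        M * ((pos l (w :: t)).map (fun u => ind g (g u) s)).sum)
      (fun s => add_nonneg (add_nonneg (hb s) (mul_nonneg hM.le (ind_nonneg g _ s)))
        (mul_nonneg hM.le (by
          rw [count_eq]
          positivity))) (δ / 8) hδ'
    rw [disc_add, disc_add, disc_mul, disc_mul, cost_add, cost_add, cost_mul, cost_mul,
      disc_list_sum] at hr3
    have hLb : ((pos l (w :: t)).map (fun u => disc m (ind g (g u)) t)).sum =
        cost b' l (w :: t) := rfl
    rw [hLb] at hr3
    -- names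
    set A1 := cost b l (w :: t) with hA1
    set A2 := cost (ind g (g t)) l (w :: t) with hA2
    set A3 := cost b' l (w :: t) with hA3
    set B1 := cost b r (w' :: t) with hB1
    set B2 := cost (ind g (g t)) r (w' :: t) with hB2
    set B3 := cost (fun s => ((pos l (w :: t)).map (fun u => ind g (g u) s)).sum) r (w' :: t)
      with hB3
    have nA1 : 0 ≤ A1 := cost_nonneg hb _ _
    have nA2 : 0 ≤ A2 := cost_nonneg (ind_nonneg g _) _ _
    have nA3 : 0 ≤ A3 := cost_nonneg hb' _ _
    have nB1 : 0 ≤ B1 := cost_nonneg hb _ _
    have nB2 : 0 ≤ B2 := cost_nonneg (ind_nonneg g _) _ _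
    have nB3 : 0 ≤ B3 := cost_nonneg (fun s => by rw [count_eq]; positivity) _ _
    have hβM : M = β + δ := rfl
    set τ1 := disc m b' t with hτ1def
    set τ2 := disc m (ind g (g t)) t with hτ2def
    have htot : A1 + B1 + M * (A2 + B2 + B3) < M := by
      have e1 : M * τ1 ≤ M * (1 / 4) := mul_le_mul_of_nonneg_left hτ1 hM.le
      have e2 : M * τ2 ≤ M * (1 / 4) := mul_le_mul_of_nonneg_left hτ2 hM.le
      have e3 : 0 ≤ M * A3 := mul_nonneg hM.le nA3
      nlinarith
    have hconf : A2 + B2 + B3 < 1 := by
      by_contra hcon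
      push Not at hcon
      have : M * 1 ≤ M * (A2 + B2 + B3) := mul_le_mul_of_nonneg_left hcon hM.le
      linarith
    have hcost : A1 + B1 < β + δ := by
      have : 0 ≤ M * (A2 + B2 + B3) := mul_nonneg hM.le (by positivity)
      linarith
    -- absence of conflicts
    have hsum0 : ∀ (c : List W → ℝ) (L : List (List W)), (∀ s, 0 ≤ c s) →
        (L.map c).sum < 1 → ∀ s ∈ L, c s < 1 := by
      intro c L hc hlt s hs
      have : c s ≤ (L.map c).sum :=
        List.single_le_sum (fun x hx => by
          obtain ⟨s', -, rfl⟩ := List.mem_map.1 hx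
          exact hc s') _ (List.mem_map_of_mem hs)
      linarith
    have hind : ∀ x s, ind g x s < 1 → g s ≠ x := by
      intro x s h h'
      unfold ind at h
      rw [if_pos h'] at h
      exact lt_irrefl _ h
    have cA : ∀ s ∈ pos l (w :: t), g s ≠ g t := fun s hs =>
      hind _ _ (hsum0 _ _ (ind_nonneg g _) (by change A2 < 1; linarith) s hs)
    have cB : ∀ s ∈ pos r (w' :: t), g s ≠ g t := fun s hs =>
      hind _ _ (hsum0 _ _ (ind_nonneg g _) (by change B2 < 1; linarith) s hs)
    have cC : ∀ s ∈ pos r (w' :: t), ∀ u ∈ pos l (w :: t), g s ≠ g u := by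
      intro s hs u hu
      have h1 := hsum0 (fun s => ((pos l (w :: t)).map (fun u => ind g (g u) s)).sum) _
        (fun s => by rw [count_eq]; positivity) (by change B3 < 1; linarith) s hs
      exact hind _ _ (hsum0 (fun u => ind g (g u) s) _ (fun u => ind_nonneg g _ s) h1 u hu)
    refine ⟨node w l w' r, ⟨hl1, hr1⟩, ?_, ?_⟩
    · simp only [pos, List.map_cons, List.map_append, List.nodup_cons, List.nodup_append,
        List.mem_append, List.mem_map, not_or, not_exists, not_and]
      refine ⟨⟨fun s hs => cA s hs, fun s hs => cB s hs⟩, hl2, hr2, ?_⟩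
      rintro x ⟨u, hu, rfl⟩ y ⟨s, hs, rfl⟩ h
      exact cC s hs u hu h.symm
    · have e1 : cost b (node w l w' r) t = b t + (A1 + B1) := by
        simp [cost, pos, hA1, hB1]
      rw [e1, Finset.sum_range_succ']
      have e2 : ∑ j ∈ Finset.range (m + 1), (4 / (Fintype.card W : ℝ)) ^ (j + 1) *
          lev (j + 1) b t = β := rfl
      rw [e2]
      simp only [pow_zero, one_mul, lev_zero]
      linarith

end Main

end H31.Supra
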