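import Mathlib
import Pool.Agent.H31.Supra.Rainbow
import Pool.Agent.H31.Supra.Folner

set_option linter.unusedSimpArgs false
set_option linter.unusedVariables false
set_option linter.unusedSectionVars false

open scoped Pointwise ENNReal Topology
open Filter

namespace H31.Supra

section Desc

variable {W : Type*} [Fintype W]

open Classical in
/-- The nodes `n` levels below `t`. -/
noncomputable def desc : ℕ → List W → Finset (List W)
  | 0, t => {t}
  | n + 1, t => Finset.univ.biUnion (fun w => desc n (w :: t))

theorem mem_desc (n : ℕ) (t s : List W) : s ∈ desc n t ↔ ∃ u, u.length = n ∧ s = u ++ t := by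
  induction n generalizing t with
  | zero =>
    simp only [desc, Finset.mem_singleton]
    constructor
    · rintro rfl
      exact ⟨[], rfl, rfl⟩
    · rintro ⟨u, hu, rfl⟩
      rw [List.length_eq_zero_iff.1 hu]
      rfl
  | succ n ih =>
    simp only [desc, Finset.mem_biUnion, Finset.mem_univ, true_and, ih]
    constructor
    · rintro ⟨w, u, hu, rfl⟩
      exact ⟨u ++ [w], by simp [hu], by simp⟩
    · rintro ⟨u, hu, rfl⟩
      have hne : u ≠ [] := by
        rintro rfl
        simp at hu
      refine ⟨u.getLast hne, u.dropLast, by simp [hu], ?_⟩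
      conv_lhs => rw [← List.dropLast_append_getLast hne]
      simp

theorem lev_eq_sum (n : ℕ) (b : List W → ℝ) (t : List W) : lev n b t = ∑ s ∈ desc n t, b s := by
  classical
  induction n generalizing t with
  | zero => simp [desc]
  | succ n ih =>
    rw [lev_succ]
    simp only [ih]
    have : desc (n + 1) t = Finset.univ.biUnion (fun w => desc n (w :: t)) := by
      simp only [desc]
    rw [this, Finset.sum_biUnion]
    intro w _ w' _ hww'
    rw [Function.onFun, Finset.disjoint_left]
    intro s hs hs'
    rw [mem_desc] at hs hs'
    obtain ⟨u, hu, rfl⟩ := hs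
    obtain ⟨u', hu', h⟩ := hs'
    have := (List.append_inj h (by rw [hu, hu'])).2
    exact hww' (List.cons.inj this).1

/-- Bounding the number of nodes of a given colour on a level. -/
theorem lev_ind_le {C X : Type*} (g : List W → C) (x : C) (n : ℕ) (t : List W)
    (F : List W → X) (Y : Finset X)
    (h1 : ∀ s ∈ desc n t, g s = x → F s ∈ Y)
    (h2 : ∀ s ∈ desc n t, ∀ s' ∈ desc n t, g s = x → g s' = x → F s = F s' → s = s') :
    lev n (ind g x) t ≤ Y.card := by
  classical
  rw [lev_eq_sum]
  have : ∑ s ∈ desc n t, ind g x s = (((desc n t).filter (fun s => g s = x)).card : ℝ) := by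
    rw [Finset.card_filter]
    push_cast
    apply Finset.sum_congr rfl
    intro s _
    unfold ind
    congr!
  rw [this]
  exact_mod_cast Finset.card_le_card_of_injOn F
    (fun s hs => by
      rw [Finset.mem_coe, Finset.mem_filter] at hs
      exact h1 s hs.1 hs.2)
    (fun s hs s' hs' h => by
      rw [Finset.mem_coe, Finset.mem_filter] at hs hs'
      exact h2 s hs.1 s' hs'.1 hs.2 hs'.2 h)

end Desc

namespace BT

variable {W : Type*}

/-- the node of `e` (started at `t`) with address `u` -/
def at' : BT W → List W → List Bool → List W
  | leaf, t, _ => t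
  | node _ _ _ _, t, [] => t
  | node w l _ _, t, false :: u => at' l (w :: t) u
  | node _ _ w' r, t, true :: u => at' r (w' :: t) u

@[simp] theorem at'_nil (e : BT W) (t : List W) : at' e t [] = t := by
  cases e <;> rfl

theorem at'_mem (m : ℕ) : ∀ (e : BT W) (t : List W) (u : List Bool), Full m e → u.length ≤ m →
    at' e t u ∈ pos e t := by
  induction m with
  | zero =>
    intro e t u he hu
    rw [List.length_eq_zero_iff.1 (Nat.le_zero.1 hu), at'_nil]
    cases e <;> simp [pos]
  | succ m ih =>
    intro e t u he hu
    cases e with
    | leaf => exact he.elim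
    | node w l w' r =>
      cases u with
      | nil => simp [pos]
      | cons b u =>
        rw [List.length_cons] at hu
        cases b with
        | false =>
          simp only [at', pos, List.mem_cons, List.mem_append]
          exact Or.inr (Or.inl (ih l _ u he.1 (by omega)))
        | true =>
          simp only [at', pos, List.mem_cons, List.mem_append]
          exact Or.inr (Or.inr (ih r _ u he.2 (by omega)))

theorem at'_ne {C : Type*} (g : List W → C) (m : ℕ) : ∀ (e : BT W) (t : List W)
    (u u' : List Bool), Full m e → u.length ≤ m → u'.length ≤ m → ((pos e t).map g).Nodup →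
    u ≠ u' → g (at' e t u) ≠ g (at' e t u') := by
  induction m with
  | zero =>
    intro e t u u' he hu hu' _ hne
    rw [Nat.le_zero, List.length_eq_zero_iff] at hu hu'
    exact (hne (hu.trans hu'.symm)).elim
  | succ m ih =>
    intro e t u u' he hu hu' hnd hne
    cases e with
    | leaf => exact he.elim
    | node w l w' r =>
      simp only [pos, List.map_cons, List.map_append, List.nodup_cons, List.nodup_append,
        List.mem_append, List.mem_map, not_or, not_exists, not_and] at hnd
      obtain ⟨⟨a1, a2⟩, a3, a4, a5⟩ := hnd
      have memL : ∀ v : List Bool, v.length + 1 ≤ m + 1 → at' l (w :: t) v ∈ pos l (w :: t) :=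
        fun v hv => at'_mem m l _ v he.1 (by omega)
      have memR : ∀ v : List Bool, v.length + 1 ≤ m + 1 → at' r (w' :: t) v ∈ pos r (w' :: t) :=
        fun v hv => at'_mem m r _ v he.2 (by omega)
      cases u with
      | nil =>
        cases u' with
        | nil => exact (hne rfl).elim
        | cons b' u' =>
          rw [List.length_cons] at hu'
          cases b' with
          | false => exact fun h => a1 _ (memL u' hu') h.symm
          | true => exact fun h => a2 _ (memR u' hu') h.symm
      | cons b u =>
        rw [List.length_cons] at hu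
        cases u' with
        | nil =>
          cases b with
          | false => exact fun h => a1 _ (memL u hu) h
          | true => exact fun h => a2 _ (memR u hu) h
        | cons b' u' =>
          rw [List.length_cons] at hu'
          cases b with
          | false =>
            cases b' with
            | false =>
              exact ih l _ u u' he.1 (by omega) (by omega) a3 (fun h => hne (by rw [h]))
            | true => exact fun h => a5 _ ⟨_, memL u hu, rfl⟩ _ ⟨_, memR u' hu', rfl⟩ h
          | true =>
            cases b' with
            | false => exact fun h => a5 _ ⟨_, memL u' hu', rfl⟩ _ ⟨_, memR u hu, rfl⟩ h.symm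
            | true =>
              exact ih r _ u u' he.2 (by omega) (by omega) a4 (fun h => hne (by rw [h]))

theorem at'_child (m : ℕ) : ∀ (e : BT W) (t : List W) (u : List Bool) (b : Bool), Full m e →
    u.length < m → ∃ w, at' e t (u ++ [b]) = w :: at' e t u := by
  induction m with
  | zero => intro e t u b he hu; exact absurd hu (Nat.not_lt_zero _)
  | succ m ih =>
    intro e t u b he hu
    cases e with
    | leaf => exact he.elim
    | node w l w' r =>
      cases u with
      | nil =>
        cases b with
        | false => exact ⟨w, by simp [at']⟩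
        | true => exact ⟨w', by simp [at']⟩
      | cons c u =>
        rw [List.length_cons] at hu
        cases c with
        | false => exact ih l _ u b he.1 (by omega)
        | true => exact ih r _ u b he.2 (by omega)

theorem at'_length (m : ℕ) (e : BT W) (t : List W) (u : List Bool) (he : Full m e)
    (hu : u.length ≤ m) : (at' e t u).length = t.length + u.length := by
  induction u using List.reverseRecOn with
  | nil => simp
  | append_singleton u b ih =>
    rw [List.length_append, List.length_singleton] at hu
    obtain ⟨w, hw⟩ := at'_child m e t u b he (by omega)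
    rw [hw, List.length_cons, ih (by omega), List.length_append, List.length_singleton]
    omega

end BT

open BT

/-- Compactness: an infinite binary tree with pairwise distinct colours. -/
theorem exists_infinite {W C : Type*} [Finite W] (g : List W → C)
    (h : ∀ m, ∃ e : BT W, Full m e ∧ ((pos e []).map g).Nodup) :
    ∃ p : List Bool → List W, Function.Injective (fun u => g (p u)) ∧
      ∀ u b, ∃ w, p (u ++ [b]) = w :: p u := by
  choose e he hnd using h
  let U : Ultrafilter ℕ := hyperfilter ℕ
  have hU : (U : Filter ℕ) ≤ atTop := by
    rw [← Nat.cofinite_eq_atTop]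
    exact hyperfilter_le_cofinite
  have hex : ∀ u : List Bool, ∃ x : List W, ∀ᶠ m in (U : Filter ℕ), at' (e m) [] u = x := by
    intro u
    have hfin : {l : List W | l.length = u.length}.Finite := List.finite_length_eq W u.length
    have hmem : {l : List W | l.length = u.length} ∈ U.map (fun m => at' (e m) [] u) := by
      rw [Ultrafilter.mem_map]
      have : ∀ᶠ m in (U : Filter ℕ), u.length ≤ m := hU (eventually_ge_atTop _)
      filter_upwards [this] with m hm
      have := at'_length m (e m) [] u (he m) hm
      simpa using this
    obtain ⟨x, -, hx⟩ := Ultrafilter.eq_pure_of_finite_mem hfin hmem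
    refine ⟨x, ?_⟩
    have h1 : ({x} : Set (List W)) ∈ U.map (fun m => at' (e m) [] u) := by
      rw [hx]
      exact Ultrafilter.mem_pure.2 (Set.mem_singleton x)
    rw [Ultrafilter.mem_map] at h1
    exact h1
  choose p hp using hex
  refine ⟨p, ?_, ?_⟩
  · intro u u' huu
    by_contra hne
    have h1 : ∀ᶠ m in (U : Filter ℕ), u.length ≤ m := hU (eventually_ge_atTop _)
    have h2 : ∀ᶠ m in (U : Filter ℕ), u'.length ≤ m := hU (eventually_ge_atTop _)
    obtain ⟨m, g1, g2, g3, g4⟩ := (h1.and (h2.and ((hp u).and (hp u')))).exists
    have := at'_ne g m (e m) [] u u' (he m) g1 g2 (hnd m) hne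
    rw [g3, g4] at this
    exact this huu
  · intro u b
    have h1 : ∀ᶠ m in (U : Filter ℕ), u.length < m := hU (eventually_gt_atTop _)
    obtain ⟨m, g1, g2, g3⟩ := (h1.and ((hp u).and (hp (u ++ [b])))).exists
    obtain ⟨w, hw⟩ := at'_child m (e m) [] u b (he m) g1
    rw [g2, g3] at hw
    exact ⟨w, hw⟩

/-- A binary tree with bounded displacement contradicts the existence of a measure. -/
theorem not_hasMeasure_range {G : Type*} [Group G] (ψ : List Bool → G)
    (hψ : Function.Injective ψ) (S : Finset G)
    (hS : ∀ u b, ∃ s ∈ S, ψ (u ++ [b]) = s * ψ u) : ¬ HasMeasure (Set.range ψ) := by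
  classical
  rintro ⟨μ, h0, hadd, hinv, hR⟩
  choose s hsS hs using hS
  have key : ∀ b : Bool, μ (Set.range (fun u => ψ (u ++ [b]))) = 1 := by
    intro b
    let P : G → Set G := fun x => ψ '' {u | s u b = x}
    have e1 : Set.range ψ = ⋃ x ∈ S, P x := by
      ext z
      simp only [Set.mem_range, Set.mem_iUnion, P, Set.mem_image, Set.mem_ofPred_eq]
      constructor
      · rintro ⟨u, rfl⟩
        exact ⟨s u b, hsS u b, u, rfl, rfl⟩
      · rintro ⟨x, _, u, _, rfl⟩
        exact ⟨u, rfl⟩
    have e2 : Set.range (fun u => ψ (u ++ [b])) = ⋃ x ∈ S, x • P x := by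
      ext z
      simp only [Set.mem_range, Set.mem_iUnion, P, Set.mem_smul_set, Set.mem_image,
        Set.mem_ofPred_eq, smul_eq_mul]
      constructor
      · rintro ⟨u, rfl⟩
        exact ⟨s u b, hsS u b, ψ u, ⟨u, rfl, rfl⟩, (hs u b).symm⟩
      · rintro ⟨x, _, y, ⟨u, hu, rfl⟩, rfl⟩
        exact ⟨u, by rw [hs, hu]⟩
    have d1 : ((S : Set G)).PairwiseDisjoint P := by
      intro x _ y _ hxy
      rw [Function.onFun, Set.disjoint_left]
      rintro z ⟨u, hu, rfl⟩ ⟨u', hu', h⟩
      have := hψ h
      subst this
      exact hxy (hu.symm.trans hu')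
    have d2 : ((S : Set G)).PairwiseDisjoint (fun x => x • P x) := by
      intro x _ y _ hxy
      rw [Function.onFun, Set.disjoint_left]
      rintro z hz hz'
      obtain ⟨_, ⟨u, hu, rfl⟩, rfl⟩ := hz
      obtain ⟨_, ⟨u', hu', rfl⟩, h⟩ := hz'
      simp only [Set.mem_ofPred_eq] at hu hu'
      simp only [smul_eq_mul] at h
      rw [← hu, ← hu', ← hs, ← hs] at h
      have h2 := List.append_inj_left (hψ h) (by
        have := congrArg List.length (hψ h)
        simpa using this)
      subst h2
      exact hxy (hu.symm.trans hu')
    rw [e2, sum_of_add h0 hadd S _ d2, ← hR, e1, sum_of_add h0 hadd S _ d1]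
    exact Finset.sum_congr rfl (fun x _ => hinv x _)
  have hdisj : Disjoint (Set.range (fun u => ψ (u ++ [false])))
      (Set.range (fun u => ψ (u ++ [true]))) := by
    rw [Set.disjoint_left]
    rintro z ⟨u, rfl⟩ ⟨u', h⟩
    have h1 := hψ h
    have h2 := List.append_inj_right h1 (by
      have := congrArg List.length h1
      simpa using this)
    simp at h2
  have hsub : Set.range (fun u => ψ (u ++ [false])) ∪ Set.range (fun u => ψ (u ++ [true])) ⊆
      Set.range ψ := by
    rintro z (⟨u, rfl⟩ | ⟨u, rfl⟩)
    · exact ⟨_, rfl⟩
    · exact ⟨_, rfl⟩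
  have h2 := mono_of_add hadd hsub
  rw [hadd _ _ hdisj, key, key, hR] at h2
  norm_num at h2

end H31.Supra
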