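import Mathlib
import Pool.Agent.H31.Supra.Branch
import Pool.Agent.H31.Supra.Tree

set_option linter.unusedSimpArgs false
set_option linter.unusedVariables false
set_option linter.unusedSectionVars false

open scoped Pointwise ENNReal Topology
open Filter

namespace H31.Supra

/-- The nodes of the `q`-ary tree placed in `A`. -/
def place {A W : Type*} (φ : A × W → A) (a₀ : A) : List W → A
  | [] => a₀
  | w :: t => φ (place φ a₀ t, w)

theorem place_inj {A W : Type*} (φ : A × W → A) (hφ : Function.Injective φ) (a₀ : A) :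
    ∀ s s' : List W, s.length = s'.length → place φ a₀ s = place φ a₀ s' → s = s' := by
  intro s
  induction s with
  | nil =>
    intro s' h _
    exact (List.length_eq_zero_iff.1 h.symm).symm
  | cons w t ih =>
    intro s' h h2
    cases s' with
    | nil => simp at h
    | cons w' t' =>
      simp only [place] at h2
      have h3 := hφ h2
      rw [Prod.mk.injEq] at h3
      rw [ih t' (by simpa using h) h3.1, h3.2]

theorem place_append {K W : Type*} [Group K] [DecidableEq K] {A : Set K} (φ : A × W → A)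
    (S : Finset K)
    (hS : ∀ (a : A) (w : W), ∃ s ∈ S, ((φ (a, w) : A) : K) = s * a) (a₀ : A) (t : List W) :
    ∀ s : List W, ∃ x ∈ S ^ s.length, ((place φ a₀ (s ++ t) : A) : K) = x * place φ a₀ t := by
  intro s
  induction s with
  | nil => exact ⟨1, by simp, by simp⟩
  | cons w s ih =>
    obtain ⟨x, hx, hx2⟩ := ih
    obtain ⟨y, hy, hy2⟩ := hS (place φ a₀ (s ++ t)) w
    refine ⟨y * x, ?_, ?_⟩
    · rw [List.length_cons, pow_succ']
      exact Finset.mul_mem_mul hy hx
    · change ((φ (place φ a₀ (s ++ t), w) : A) : K) = _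
      rw [hy2, hx2, mul_assoc]

open Classical in
/-- **Main theorem.** Let `f : K →* G` be a homomorphism into a supramenable group whose kernel
grows subexponentially relative to every finite subset of `K`; then `K` is supramenable. -/
theorem hasMeasure_of_hom {K G : Type*} [Group K] [Group G] (f : K →* G)
    (hG : ∀ A : Set G, A.Nonempty → HasMeasure A)
    (hN : ∀ (S : Finset K) (c : ℝ), 1 < c → ∃ C : ℝ, ∀ n : ℕ,
      (((S ^ n : Finset K) : Set K) ∩ (f.ker : Set K)).ncard ≤ C * c ^ n) (A : Set K)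
    (hAne : A.Nonempty) : HasMeasure A := by
  by_contra hA
  obtain ⟨S, lam, hlam, hbr⟩ := exists_branching hA
  obtain ⟨a₀, ha₀⟩ := hAne
  -- constants
  let c : ℝ := Real.sqrt (Real.sqrt lam)
  have hs1 : 1 < Real.sqrt lam := by
    rw [Real.lt_sqrt (by norm_num)]
    simpa using hlam
  have hc1 : 1 < c := by
    rw [Real.lt_sqrt (by norm_num)]
    simpa using hs1
  have hc0 : 0 < c := by linarith
  have hc4 : c ^ 4 = lam := by
    have e1 : c ^ 2 = Real.sqrt lam := Real.sq_sqrt (by positivity)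
    have e2 : (Real.sqrt lam) ^ 2 = lam := Real.sq_sqrt (by linarith)
    rw [show c ^ 4 = (c ^ 2) ^ 2 by ring, e1, e2]
  let T : Finset K := S ∪ S⁻¹
  obtain ⟨C₀, hC₀⟩ := hN T c hc1
  let C : ℝ := max C₀ 1
  have hC1 : 1 ≤ C := le_max_right _ _
  have hC : ∀ n : ℕ, (((T ^ n : Finset K) : Set K) ∩ (f.ker : Set K)).ncard ≤ C * c ^ n :=
    fun n => (hC₀ n).trans (mul_le_mul_of_nonneg_right (le_max_left _ _) (by positivity))
  obtain ⟨k, hk⟩ := pow_unbounded_of_one_lt (512 * C) hc1
  have hck : 0 < c ^ k := by positivity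
  have hck1 : 512 ≤ c ^ k := by linarith
  let q : ℕ := ⌊lam ^ k⌋₊
  have hlamk : lam ^ k = (c ^ k) ^ 4 := by rw [← hc4]; ring
  have hq1 : (q : ℝ) ≤ lam ^ k := Nat.floor_le (by positivity)
  have hq2 : (c ^ k) ^ 4 / 2 ≤ q := by
    have h1 : lam ^ k < q + 1 := Nat.lt_floor_add_one _
    rw [hlamk] at h1
    have h2 : (2 : ℝ) ≤ (c ^ k) ^ 4 := by nlinarith [pow_le_pow_left₀ (by norm_num) hck1 4]
    linarith
  have hq0 : (0 : ℝ) < q := lt_of_lt_of_le (by positivity) hq2
  have hq0' : 0 < q := by exact_mod_cast hq0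
  have : Nonempty (Fin q) := ⟨⟨0, hq0'⟩⟩
  obtain ⟨φ, hφ, hφS⟩ := hbr k q hq1
  let a : List (Fin q) → A := place φ ⟨a₀, ha₀⟩
  let g : List (Fin q) → G := fun t => f (a t : K)
  let γ : ℕ → ℝ := fun n => C * (c ^ (2 * k)) ^ n
  have hγ : ∀ n, 0 ≤ γ n := fun n => by positivity
  have hmult : ∀ t n x, lev n (ind g x) t ≤ γ n := by
    intro t n x
    by_cases hex : ∃ s₀ ∈ desc n t, g s₀ = x
    · obtain ⟨s₀, hs₀, hgs₀⟩ := hex
      -- the elements of the kernel
      let Y : Finset K := (T ^ (2 * k * n)).filter (· ∈ f.ker)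
      have hY : (Y.card : ℝ) ≤ γ n := by
        have e : (((T ^ (2 * k * n) : Finset K) : Set K) ∩ (f.ker : Set K)).ncard = Y.card := by
          rw [← Set.ncard_coe_finset]
          congr 1
          ext z
          simp only [Y, Finset.coe_filter, Set.mem_inter_iff, Finset.mem_coe, SetLike.mem_coe,
            Set.mem_ofPred_eq]
        have := hC (2 * k * n)
        rw [e] at this
        refine this.trans (le_of_eq ?_)
        simp only [γ]
        rw [← pow_mul]
      refine le_trans (lev_ind_le g x n t (fun s => (a s : K) * (a s₀ : K)⁻¹) Y ?_ ?_) hY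
      · intro s hs hgs
        rw [Finset.mem_filter]
        constructor
        · rw [mem_desc] at hs hs₀
          obtain ⟨u, hu, rfl⟩ := hs
          obtain ⟨u₀, hu₀, rfl⟩ := hs₀
          obtain ⟨y, hy, hy2⟩ := place_append φ (S ^ k) hφS ⟨a₀, ha₀⟩ t u
          obtain ⟨y₀, hy₀, hy₀2⟩ := place_append φ (S ^ k) hφS ⟨a₀, ha₀⟩ t u₀
          change ((place φ ⟨a₀, ha₀⟩ (u ++ t) : A) : K) *
            ((place φ ⟨a₀, ha₀⟩ (u₀ ++ t) : A) : K)⁻¹ ∈ _
          rw [hy2, hy₀2]
          have e1 : y * (place φ ⟨a₀, ha₀⟩ t : A) * (y₀ * (place φ ⟨a₀, ha₀⟩ t : A))⁻¹ =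
              y * y₀⁻¹ := by group
          rw [e1]
          rw [hu, ← pow_mul] at hy
          rw [hu₀, ← pow_mul] at hy₀
          have h1 : y ∈ T ^ (k * n) := Finset.pow_subset_pow_left Finset.subset_union_left hy
          have h2 : y₀⁻¹ ∈ T ^ (k * n) := by
            have h3 : y₀⁻¹ ∈ (S ^ (k * n))⁻¹ := Finset.inv_mem_inv hy₀
            rw [← inv_pow] at h3
            exact Finset.pow_subset_pow_left Finset.subset_union_right h3
          have := Finset.mul_mem_mul h1 h2
          rw [← pow_add] at this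
          convert this using 2
          ring
        · rw [MonoidHom.mem_ker, map_mul, map_inv]
          change g s * (g s₀)⁻¹ = 1
          rw [hgs, hgs₀, mul_inv_cancel]
      · intro s hs s' hs' _ _ h
        have h1 : (a s : K) = a s' := mul_right_cancel h
        rw [mem_desc] at hs hs'
        obtain ⟨u, hu, rfl⟩ := hs
        obtain ⟨u', hu', rfl⟩ := hs'
        exact place_inj φ hφ _ _ _ (by simp [hu, hu']) (Subtype.ext h1)
    · have := lev_ind_le g x n t (fun s => s) (∅ : Finset (List (Fin q)))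
        (fun s hs hgs => absurd ⟨s, hs, hgs⟩ hex) (fun s hs s' hs' _ _ h => h)
      refine this.trans ?_
      simpa using hγ n
  have hratio : 32 / (q : ℝ) * c ^ (2 * k) ≤ 1 / (8 * C) := by
    have e1 : c ^ (2 * k) = (c ^ k) ^ 2 := by rw [mul_comm, pow_mul]
    rw [e1, div_mul_eq_mul_div, div_le_div_iff₀ hq0 (by positivity)]
    set z := c ^ k with hz
    have h1 : 512 * C * z ^ 2 ≤ z ^ 4 := by
      have : 512 * C * 1 ≤ z * z := by nlinarith
      nlinarith [sq_nonneg z]
    nlinarith
  have hsum : ∀ m, ∑ j ∈ Finset.range (m + 1),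
      (32 / (Fintype.card (Fin q) : ℝ)) ^ (j + 1) * γ (j + 1) ≤ 1 / 4 := by
    intro m
    rw [Fintype.card_fin]
    set x : ℝ := 32 / (q : ℝ) * c ^ (2 * k) with hx
    have hx0 : 0 ≤ x := by positivity
    have hx1 : x ≤ 1 / 8 := by
      refine hratio.trans ?_
      apply div_le_div_of_nonneg_left (by norm_num) (by norm_num)
      linarith
    have hCx : C * x ≤ 1 / 8 := by
      calc C * x ≤ C * (1 / (8 * C)) := mul_le_mul_of_nonneg_left hratio (by linarith)
        _ = 1 / 8 := by field_simp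
    have e1 : ∀ j, (32 / (q : ℝ)) ^ (j + 1) * γ (j + 1) = C * x * x ^ j := by
      intro j
      simp only [γ, hx]
      rw [mul_pow, pow_succ, pow_succ]
      ring
    simp only [e1]
    rw [← Finset.mul_sum]
    have h2 : ∑ j ∈ Finset.range (m + 1), x ^ j ≤ 2 := by
      have h3 : (∑ j ∈ Finset.range (m + 1), x ^ j) * (1 - x) = 1 - x ^ (m + 1) := by
        have := geom_sum_mul x (m + 1)
        linarith
      have h4 : 0 ≤ x ^ (m + 1) := by positivity
      have h5 : 0 ≤ ∑ j ∈ Finset.range (m + 1), x ^ j := by positivity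
      nlinarith
    have h6 : 0 ≤ C * x := by positivity
    nlinarith
  have hrb : ∀ m, ∃ e : BT (Fin q), BT.Full m e ∧ ((BT.pos e []).map g).Nodup := by
    intro m
    obtain ⟨e, h1, h2, -⟩ := rainbow g γ hγ hmult hsum m [] (fun _ => 0) (fun _ => le_rfl) 1
      (by norm_num)
    exact ⟨e, h1, h2⟩
  obtain ⟨p, hp1, hp2⟩ := exists_infinite g hrb
  refine not_hasMeasure_range (fun u => g (p u)) hp1 ((S ^ k).image f) ?_
    (hG _ ⟨_, ⟨[], rfl⟩⟩)
  intro u b
  obtain ⟨w, hw⟩ := hp2 u b
  obtain ⟨s, hs, hs2⟩ := hφS (a (p u)) w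
  refine ⟨f s, Finset.mem_image_of_mem _ hs, ?_⟩
  have e : (a (p (u ++ [b])) : K) = s * a (p u) := by
    rw [hw]
    exact hs2
  change f (a (p (u ++ [b])) : K) = f s * f (a (p u) : K)
  rw [e, map_mul]

/-- Set version of `hasMeasure_of_hom`. -/
theorem hasMeasure_of_hom' {K G : Type*} [Group K] [Group G] (f : K →* G)
    (hG : ∀ A : Set G, A.Nonempty → HasMeasure A)
    (hN : ∀ S : Set K, S.Finite → ∀ c : ℝ, 1 < c → ∃ C : ℝ, ∀ n : ℕ,
      ((S ^ n ∩ (f.ker : Set K)).ncard : ℝ) ≤ C * c ^ n) (A : Set K)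
    (hAne : A.Nonempty) : HasMeasure A := by
  classical
  apply hasMeasure_of_hom f hG _ A hAne
  intro S c hc
  obtain ⟨C, hC⟩ := hN S S.finite_toSet c hc
  refine ⟨C, fun n => ?_⟩
  have := hC n
  rw [← Finset.coe_pow] at this
  convert this

/-- The direct product of a supramenable group and a group of locally subexponential growth is
supramenable. -/
theorem hasMeasure_prod {G H : Type*} [Group G] [Group H]
    (hG : ∀ A : Set G, A.Nonempty → HasMeasure A)
    (hH : ∀ S : Set H, S.Finite → ∀ c : ℝ, 1 < c → ∃ C : ℝ, ∀ n : ℕ,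
      ((S ^ n).ncard : ℝ) ≤ C * c ^ n)
    (A : Set (G × H)) (hA : A.Nonempty) : HasMeasure A := by
  classical
  apply hasMeasure_of_hom' (MonoidHom.fst G H) hG _ A hA
  intro S hS c hc
  obtain ⟨C, hC⟩ := hH (Prod.snd '' S) (hS.image _) c hc
  refine ⟨C, fun n => le_trans ?_ (hC n)⟩
  have hpow : (Prod.snd '' S) ^ n = Prod.snd '' (S ^ n) :=
    (Set.image_pow (MonoidHom.snd G H) S n).symm
  have h2 : (S ^ n ∩ ((MonoidHom.fst G H).ker : Set (G × H))).ncard ≤
      ((Prod.snd '' S) ^ n).ncard := by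
    have hfin : ∀ n, ((Prod.snd '' S) ^ n).Finite := by
      intro n
      induction n with
      | zero => simp
      | succ n ih =>
        rw [pow_succ]
        exact ih.mul (hS.image _)
    apply Set.ncard_le_ncard_of_injOn (fun z => z.2) _ _ (hfin n)
    · rintro z ⟨hz, -⟩
      rw [hpow]
      exact Set.mem_image_of_mem _ hz
    · rintro ⟨z1, z2⟩ ⟨-, hz⟩ ⟨z1', z2'⟩ ⟨-, hz'⟩ h
      rw [SetLike.mem_coe, MonoidHom.mem_ker] at hz hz'
      simp only [MonoidHom.coe_fst] at hz hz' h
      rw [hz, hz', h]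
  exact_mod_cast h2

end H31.Supra
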