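import Mathlib
import Pool.Agent.H31.Supra.Main

/-!
Supramenability and concentration of bounded displacement maps from regular trees.
-/

set_option linter.unusedSimpArgs false
set_option linter.unusedVariables false
set_option linter.unusedSectionVars false

open scoped Pointwise ENNReal Topology
open Filter

namespace H31.Supra

section Flat

variable {q m : ℕ}

/-- Concatenation of blocks. -/
def flat (l : List (Fin m → Fin q)) : List (Fin q) := l.flatMap List.ofFn

theorem flat_cons (w : Fin m → Fin q) (l : List (Fin m → Fin q)) :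
    flat (w :: l) = List.ofFn w ++ flat l := rfl

theorem flat_append (l l' : List (Fin m → Fin q)) : flat (l ++ l') = flat l ++ flat l' := by
  simp [flat]

theorem flat_length (l : List (Fin m → Fin q)) : (flat l).length = m * l.length := by
  induction l with
  | nil => simp [flat]
  | cons w l ih =>
    rw [flat_cons, List.length_append, ih, List.length_ofFn, List.length_cons]
    ring

theorem flat_inj : ∀ l l' : List (Fin m → Fin q), l.length = l'.length → flat l = flat l' →
    l = l' := by
  intro l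
  induction l with
  | nil =>
    intro l' h _
    exact (List.length_eq_zero_iff.1 h.symm).symm
  | cons w l ih =>
    intro l' h h2
    cases l' with
    | nil => simp at h
    | cons w' l' =>
      rw [flat_cons, flat_cons] at h2
      have h3 := List.append_inj h2 (by simp)
      rw [ih l' (by simpa using h) h3.2, List.ofFn_injective h3.1]

end Flat

theorem walk_append {G W : Type*} [Group G] [DecidableEq G] (g : List W → G)
    (S : Finset G) (hS : ∀ w t, ∃ s ∈ S, g (w :: t) = s * g t) (t : List W) :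
    ∀ s : List W, ∃ x ∈ S ^ s.length, g (s ++ t) = x * g t := by
  intro s
  induction s with
  | nil => exact ⟨1, by simp, by simp⟩
  | cons w s ih =>
    obtain ⟨x, hx, hx2⟩ := ih
    obtain ⟨y, hy, hy2⟩ := hS w (s ++ t)
    refine ⟨y * x, ?_, ?_⟩
    · rw [List.length_cons, pow_succ']
      exact Finset.mul_mem_mul hy hx
    · rw [List.cons_append, hy2, hx2, mul_assoc]

theorem lev_ind_eq_ncard {W C : Type*} [Fintype W] (g : List W → C) (x : C) (n : ℕ)
    (t : List W) :
    lev n (ind g x) t = ({s : List W | s.length = n ∧ g (s ++ t) = x}.ncard : ℝ) := by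
  classical
  rw [lev_eq_sum]
  have h1 : ∑ s ∈ desc n t, ind g x s = (((desc n t).filter (fun s => g s = x)).card : ℝ) := by
    rw [Finset.card_filter]
    push_cast
    apply Finset.sum_congr rfl
    intro s _
    unfold ind
    congr!
  rw [h1]
  have h2 : (((desc n t).filter (fun s => g s = x)) : Set (List W)) =
      (fun s => s ++ t) '' {s : List W | s.length = n ∧ g (s ++ t) = x} := by
    ext s
    simp only [Finset.coe_filter, Set.mem_ofPred_eq, mem_desc, Set.mem_image]
    constructor
    · rintro ⟨⟨u, hu, rfl⟩, h⟩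
      exact ⟨u, ⟨hu, h⟩, rfl⟩
    · rintro ⟨u, ⟨hu, h⟩, rfl⟩
      exact ⟨⟨u, hu, rfl⟩, h⟩
  rw [← Set.ncard_coe_finset, h2, Set.ncard_image_of_injective]
  intro a b hab
  exact List.append_cancel_right hab

open Classical in
/-- In a supramenable group, bounded displacement maps from regular trees concentrate. -/
theorem concentrates {G : Type*} [Group G]
    (hG : ∀ A : Set G, A.Nonempty → HasMeasure A) {q : ℕ} (hq : 0 < q) (S : Finset G)
    (g : List (Fin q) → G) (hS : ∀ w t, ∃ s ∈ S, g (w :: t) = s * g t)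
    (C ρ : ℝ) (hρ0 : 0 < ρ) (hρ : ρ < 1) :
    ∃ (t : List (Fin q)) (n : ℕ) (x : G),
      C * (ρ * q) ^ n < ({s : List (Fin q) | s.length = n ∧ g (s ++ t) = x}.ncard : ℝ) := by
  by_contra hcon
  push Not at hcon
  let C' : ℝ := max C 1
  have hC1 : 1 ≤ C' := le_max_right _ _
  have hq0 : (0 : ℝ) < q := by exact_mod_cast hq
  have hcount : ∀ t n x, lev n (ind g x) t ≤ C' * (ρ * q) ^ n := by
    intro t n x
    rw [lev_ind_eq_ncard]
    exact (hcon t n x).trans (mul_le_mul_of_nonneg_right (le_max_left _ _) (by positivity))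
  -- choice of the block length
  obtain ⟨m, hm⟩ := exists_pow_lt_of_lt_one (show (0 : ℝ) < 1 / (256 * C') by positivity) hρ
  have hW : Nonempty (Fin m → Fin q) := ⟨fun _ => ⟨0, hq⟩⟩
  have hcard : (Fintype.card (Fin m → Fin q) : ℝ) = (q : ℝ) ^ m := by
    simp
  let g' : List (Fin m → Fin q) → G := fun t => g (flat t)
  let γ : ℕ → ℝ := fun n => C' * ((ρ * q) ^ m) ^ n
  have hγ : ∀ n, 0 ≤ γ n := fun n => by positivity
  have hmult : ∀ t n x, lev n (ind g' x) t ≤ γ n := by
    intro t n x
    have h1 := lev_ind_le g' x n t (fun s => flat s)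
      ((desc (m * n) (flat t)).filter (fun s => g s = x)) (by
        intro s hs hgs
        rw [Finset.mem_filter]
        rw [mem_desc] at hs
        obtain ⟨u, hu, rfl⟩ := hs
        refine ⟨?_, hgs⟩
        rw [mem_desc]
        exact ⟨flat u, by rw [flat_length, hu], by rw [flat_append]⟩) (by
        intro s hs s' hs' _ _ h
        rw [mem_desc] at hs hs'
        obtain ⟨u, hu, rfl⟩ := hs
        obtain ⟨u', hu', rfl⟩ := hs'
        exact flat_inj _ _ (by simp [hu, hu']) h)
    refine h1.trans ?_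
    have h2 : (((desc (m * n) (flat t)).filter (fun s => g s = x)).card : ℝ) =
        lev (m * n) (ind g x) (flat t) := by
      rw [lev_eq_sum, Finset.card_filter]
      push_cast
      apply Finset.sum_congr rfl
      intro s _
      unfold ind
      congr!
    rw [h2]
    refine (hcount _ _ _).trans (le_of_eq ?_)
    simp only [γ]
    rw [← pow_mul]
  have hsum : ∀ j₀, ∑ j ∈ Finset.range (j₀ + 1),
      (32 / (Fintype.card (Fin m → Fin q) : ℝ)) ^ (j + 1) * γ (j + 1) ≤ 1 / 4 := by
    intro j₀
    rw [hcard]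
    set x : ℝ := 32 * ρ ^ m with hx
    have hx0 : 0 ≤ x := by positivity
    have hCx : C' * x ≤ 1 / 8 := by
      have : ρ ^ m * (256 * C') ≤ 1 := by
        rw [lt_div_iff₀ (by positivity)] at hm
        exact hm.le
      rw [hx]
      linarith
    have hx1 : x ≤ 1 / 8 := by nlinarith
    have e1 : ∀ j, (32 / (q : ℝ) ^ m) ^ (j + 1) * γ (j + 1) = C' * x * x ^ j := by
      intro j
      simp only [γ, hx]
      have hqm : (q : ℝ) ^ m ≠ 0 := by positivity
      calc (32 / (q : ℝ) ^ m) ^ (j + 1) * (C' * ((ρ * q) ^ m) ^ (j + 1)) =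
          C' * ((32 / (q : ℝ) ^ m) * (ρ * q) ^ m) ^ (j + 1) := by rw [mul_pow]; ring
        _ = C' * (32 * ρ ^ m) ^ (j + 1) := by
          congr 2
          rw [mul_pow]
          field_simp
        _ = C' * (32 * ρ ^ m) * (32 * ρ ^ m) ^ j := by rw [pow_succ]; ring
    simp only [e1]
    rw [← Finset.mul_sum]
    have h2 : ∑ j ∈ Finset.range (j₀ + 1), x ^ j ≤ 2 := by
      have h3 : (∑ j ∈ Finset.range (j₀ + 1), x ^ j) * (1 - x) = 1 - x ^ (j₀ + 1) := by
        have := geom_sum_mul x (j₀ + 1)
        linarith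
      have h4 : 0 ≤ x ^ (j₀ + 1) := by positivity
      have h5 : 0 ≤ ∑ j ∈ Finset.range (j₀ + 1), x ^ j := by positivity
      nlinarith
    have h6 : 0 ≤ C' * x := by positivity
    nlinarith
  have hrb : ∀ j, ∃ e : BT (Fin m → Fin q), BT.Full j e ∧ ((BT.pos e []).map g').Nodup := by
    intro j
    obtain ⟨e, h1, h2, -⟩ := rainbow g' γ hγ hmult hsum j [] (fun _ => 0) (fun _ => le_rfl) 1
      (by norm_num)
    exact ⟨e, h1, h2⟩
  obtain ⟨p, hp1, hp2⟩ := exists_infinite g' hrb
  refine not_hasMeasure_range (fun u => g' (p u)) hp1 (S ^ m) ?_ (hG _ ⟨_, ⟨[], rfl⟩⟩)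
  intro u b
  obtain ⟨w, hw⟩ := hp2 u b
  obtain ⟨x, hx, hx2⟩ := walk_append g S hS (flat (p u)) (List.ofFn w)
  rw [List.length_ofFn] at hx
  refine ⟨x, hx, ?_⟩
  change g (flat (p (u ++ [b]))) = x * g (flat (p u))
  rw [hw, flat_cons]
  exact hx2

open Classical in
/-- A group which is not supramenable has a bounded displacement map from the binary tree which is
injective on levels. -/
theorem exists_level_injective {G : Type*} [Group G] {A : Set G} (hne : A.Nonempty)
    (hA : ¬ HasMeasure A) :
    ∃ (S : Finset G) (g : List (Fin 2) → G), (∀ w t, ∃ s ∈ S, g (w :: t) = s * g t) ∧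
      ∀ (t : List (Fin 2)) (n : ℕ) (x : G),
        {s : List (Fin 2) | s.length = n ∧ g (s ++ t) = x}.ncard ≤ 1 := by
  obtain ⟨S, lam, hlam, hbr⟩ := exists_branching hA
  obtain ⟨a₀, ha₀⟩ := hne
  obtain ⟨k, hk⟩ := pow_unbounded_of_one_lt 2 hlam
  obtain ⟨φ, hφ, hφS⟩ := hbr k 2 (by exact_mod_cast hk.le)
  refine ⟨S ^ k, fun t => (place φ ⟨a₀, ha₀⟩ t : A), ?_, ?_⟩
  · intro w t
    exact hφS (place φ ⟨a₀, ha₀⟩ t) w
  · intro t n x
    have hfin : {s : List (Fin 2) | s.length = n ∧
        ((place φ ⟨a₀, ha₀⟩ (s ++ t) : A) : G) = x}.Finite :=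
      (List.finite_length_eq (Fin 2) n).subset (fun s hs => hs.1)
    rw [Set.ncard_le_one hfin]
    rintro s ⟨hs, h⟩ s' ⟨hs', h'⟩
    have h1 : place φ ⟨a₀, ha₀⟩ (s ++ t) = place φ ⟨a₀, ha₀⟩ (s' ++ t) :=
      Subtype.ext (h.trans h'.symm)
    exact List.append_cancel_right (place_inj φ hφ _ _ _ (by simp [hs, hs']) h1)

end H31.Supra
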